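import Mathlib
import Pool.Agent.H.MP_35204b_gt.A

open Set Filter Topology Pool.Agent.H.MP_35204b_gt

namespace Pool.Agent.Results.MP_35204b_gt.CMinimal

/-- no strictly coarser Hausdorff group topology -/
def Minimal (G : Type) [Group G] [t : TopologicalSpace G] : Prop :=
  ∀ s : TopologicalSpace G, @IsTopologicalGroup G s _ → @T2Space G s →
    (∀ U : Set G, @IsOpen G s U → @IsOpen G t U) → s = t

/-- all quotients by closed normal subgroups are minimal -/
def TotallyMinimal (G : Type) [Group G] [TopologicalSpace G] : Prop :=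
  ∀ (N : Subgroup G) [N.Normal], IsClosed (N : Set G) → Minimal (G ⧸ N)

theorem result (A K : Type) [CommGroup A] [TopologicalSpace A] [IsTopologicalGroup A] [T2Space A]
    [Group K] [TopologicalSpace K] [IsTopologicalGroup K] [T2Space K] [CompactSpace K] :
    (Minimal A → ∀ H : Subgroup (A × K), IsClosed (H : Set (A × K)) → Minimal H) ∧
    (TotallyMinimal A → ∀ H : Subgroup (A × K), IsClosed (H : Set (A × K)) → TotallyMinimal H) := by
  refine ⟨fun hA H hH s hs hs' hle => le_antisymm ?_ hle,
    fun hA H hH N _ hN s hs hs' hle => le_antisymm ?_ hle⟩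
  · refine @fin H H _ instTopologicalSpaceSubtype _ (MonoidHom.id H) s _ hs
      (Subgroup.instIsTopologicalGroupSubtypeMem H) (@continuous_id _ (_)) ?_
    exact @core A K A H _ _ _ _ _ _ _ _ _ _ _ _ s hs hs' hA H hH (MonoidHom.id H)
      (continuous_id_iff_le.2 hle) Function.surjective_id (MonoidHom.id A) IsOpenMap.id
      Function.surjective_id fun a => ⟨fun h => ⟨1, rfl, Eq.symm h⟩, by
        rintro ⟨_, rfl, rfl⟩; rfl⟩
  · let P : Subgroup A := N.map ((MonoidHom.fst A K).comp H.subtype)
    have hP : IsClosed (P : Set A) := by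
      have := isClosedMap_fst_of_compactSpace _ (hH.isClosedMap_subtype_val _ hN)
      rwa [← image_comp] at this
    refine fin (QuotientGroup.mk' N) s _ hs inferInstance continuous_quotient_mk' ?_
    exact @core A K (A ⧸ P) (H ⧸ N) _ _ _ _ _ _ _ _ _ _ _ _ s hs hs' (hA P hP) H hH
      (QuotientGroup.mk' N) (continuous_le_rng hle continuous_quotient_mk')
      (QuotientGroup.mk'_surjective N) (QuotientGroup.mk' P) QuotientGroup.isOpenMap_coe
      (QuotientGroup.mk'_surjective P) fun a => by simp [P]

end Pool.Agent.Results.MP_35204b_gt.CMinimal
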